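import Mathlib
import Pool.Agent.W973.IP.Defs

set_option autoImplicit false

/-!
# IP-SEP (helper237)
-/

open Pool.Agent.W973.IP MvPolynomial

namespace Pool.Agent.W237.IP

/-- the difference polynomial -/
noncomputable def dp {n : ℕ} (d : Fin n → ℝ) : Polynomial ℝ :=
  ∑ j : Fin n, Polynomial.C (d j) * Polynomial.X ^ (j : ℕ)

theorem dp_coeff {n : ℕ} (d : Fin n → ℝ) (j : Fin n) : (dp d).coeff j = d j := by
  unfold dp
  rw [Polynomial.finset_sum_coeff, Finset.sum_eq_single j]
  · simp
  · intro b _ hb
    rw [Polynomial.coeff_C_mul, Polynomial.coeff_X_pow, if_neg, mul_zero]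
    intro h
    exact hb (Fin.ext h.symm)
  · intro h
    exact absurd (Finset.mem_univ _) h

theorem dp_natDegree {n : ℕ} (d : Fin n → ℝ) : (dp d).natDegree ≤ n - 1 := by
  unfold dp
  apply Polynomial.natDegree_sum_le_of_forall_le
  intro j _
  refine (Polynomial.natDegree_C_mul_X_pow_le _ _).trans ?_
  have := j.2
  omega

theorem dp_eval {n : ℕ} (d : Fin n → ℝ) (s : ℝ) :
    (dp d).eval s = ∑ j : Fin n, d j * s ^ (j : ℕ) := by
  unfold dp
  rw [Polynomial.eval_finset_sum]
  simp

theorem bad_card {n : ℕ} (d : Fin n → ℝ) (hd : d ≠ 0) (M : ℕ) :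
    (Finset.univ.filter fun s : Fin M => (dp d).eval ((s : ℕ) : ℝ) = 0).card ≤ n := by
  classical
  have hne : dp d ≠ 0 := by
    intro h0
    apply hd
    funext j
    rw [← dp_coeff d j, h0]
    simp
  have h1 : ((Finset.univ.filter fun s : Fin M => (dp d).eval ((s : ℕ) : ℝ) = 0).image
      (fun s : Fin M => ((s : ℕ) : ℝ))).card ≤ (dp d).natDegree := by
    apply Polynomial.card_le_degree_of_subset_roots (p := dp d)
    intro x hx
    rw [Finset.mem_val, Finset.mem_image] at hx
    obtain ⟨s, hs, rfl⟩ := hx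
    rw [Polynomial.mem_roots hne]
    exact (Finset.mem_filter.mp hs).2
  rw [Finset.card_image_of_injective] at h1
  · exact h1.trans ((dp_natDegree d).trans (Nat.sub_le _ _))
  · intro a b hab
    have : ((a : ℕ) : ℝ) = ((b : ℕ) : ℝ) := hab
    exact Fin.ext (by exact_mod_cast this)

theorem sep : S_SEP := by
  classical
  intro n r w hr hw
  by_contra hcon
  push Not at hcon
  have hbad : (Finset.univ : Finset (Fin (MM n))) ⊆
      ((Finset.univ : Finset (Fin r × Fin r)).filter (fun p => p.1 ≠ p.2)).biUnion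
        (fun p => Finset.univ.filter fun s : Fin (MM n) =>
          (dp (fun j => w p.1 j - w p.2 j)).eval ((s : ℕ) : ℝ) = 0) := by
    intro s _
    have h := hcon s
    rw [Function.Injective] at h
    push Not at h
    obtain ⟨i, k, hik, hne⟩ := h
    rw [Finset.mem_biUnion]
    refine ⟨(i, k), ?_, ?_⟩
    · rw [Finset.mem_filter]
      exact ⟨Finset.mem_univ _, hne⟩
    · rw [Finset.mem_filter]
      refine ⟨Finset.mem_univ _, ?_⟩
      rw [dp_eval]
      have h2 : Lf (s : ℕ) (w i) - Lf (s : ℕ) (w k) = 0 := by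
        rw [sub_eq_zero]; exact hik
      unfold Lf at h2
      rw [← Finset.sum_sub_distrib] at h2
      rw [← h2]
      apply Finset.sum_congr rfl
      intro j _
      ring
  have h1 := Finset.card_le_card hbad
  rw [Finset.card_univ, Fintype.card_fin] at h1
  have h2 := h1.trans (Finset.card_biUnion_le_card_mul _ _ n (by
      intro p hp
      apply bad_card
      intro h0
      apply (Finset.mem_filter.mp hp).2
      apply hw
      funext j
      have := congrFun h0 j
      simp only [Pi.zero_apply] at this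
      linarith))
  have h3 : ((Finset.univ : Finset (Fin r × Fin r)).filter (fun p => p.1 ≠ p.2)).card
      ≤ (n + 1) ^ 2 := by
    calc ((Finset.univ : Finset (Fin r × Fin r)).filter (fun p => p.1 ≠ p.2)).card
        ≤ (Finset.univ : Finset (Fin r × Fin r)).card := Finset.card_filter_le _ _
      _ = r * r := by rw [Finset.card_univ, Fintype.card_prod, Fintype.card_fin]
      _ ≤ (n + 1) * (n + 1) := Nat.mul_le_mul hr hr
      _ = (n + 1) ^ 2 := by ring
  have h4 := Nat.mul_le_mul_right n h3
  unfold MM at h2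
  have h5 : (n + 1) ^ 2 * n = n * (n + 1) ^ 2 := Nat.mul_comm _ _
  omega

end Pool.Agent.W237.IP
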